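import Mathlib
import Pool.Agent.U464.PD.Tup

/-!
# Almost prime constellations at integers with restricted digits, uniformly in the tuple

Let `x = b ^ K`. The integers `n` have prescribed leading digits in base `b` (`n` lies in the window `[x t, x (t + 1))`,
where `t` may be as large as any power of `x`, so that the window may be as short as any power of `n`) and restricted
`K` last digits: the `i`-th digit belongs to `A i`, where the sets `A i` are arbitrary, only the product of the `|A i|`
is at least `exp (- δ K) x`. For ALL admissible tuples `P` of `k` positive even integers `m ≤ x ^ D`, uniformly in `P`,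
in `t` and in the sets `A i`, with `C_P` the constant of Hardy and Littlewood, its product cut at `x`:

* the number of these `n` such that none of the numbers `n`, `n + m`, `m ∈ P`, has a prime factor up to `x ^ (1 / r)` is
  at most a constant times `(∏ |A i|) C_P / K ^ (k + 1)`; this includes all the `n` for which `n` and all `n + m` are
  primes larger than `x ^ (1 / r)`, that is, all prime constellations for `P` except for the first terms;
* if there is no local obstruction at the primes dividing `b`, then at least a constant times as many of these `n` are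
  such that moreover the product of `n` and of all `n + m` has at most `r` prime factors.

Proof: `Pool/Agent/U464/PD/Tup.lean`, from the sieve for integers with restricted digits
`Pool.Agent.Y816.PD.uni_fun` of the starting library.
-/

set_option autoImplicit false

namespace Pool.Agent.U464.Old.RestrictedDigitTuples

open Finset Filter

/-- The number of the residue classes modulo `q` occupied by `0` and the elements of `P`. -/
def w (P : Finset ℕ) (q : ℕ) : ℕ := ((insert 0 P).image (fun m => m % q)).card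

/-- The constant `C_P` of Hardy and Littlewood, the product cut at `x`: `2 ^ k` times the product over the odd primes
`q ≤ x` of `(1 - w q / q) / (1 - 1 / q) ^ (k + 1)`, `k = |P|`. -/
noncomputable def partialC (P : Finset ℕ) (x : ℕ) : ℝ :=
  2 ^ P.card * ∏ q ∈ (Icc 3 x).filter Nat.Prime, ((1 - (w P q : ℝ) / q) / (1 - 1 / (q : ℝ)) ^ (P.card + 1))

/-- The `n` in `[b ^ K t, b ^ K (t + 1))` whose `i`-th digit in base `b` (the digit of the units for `i = 0`) belongs
to `A i` for all `i < K`, such that all prime factors of `n` and of the `n + m`, `m ∈ P`, are larger than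
`b ^ (K / r)`. -/
def Rough (P : Finset ℕ) (b K t r : ℕ) (A : ℕ → Finset ℕ) : Set ℕ :=
  {n | b ^ K * t ≤ n ∧ n < b ^ K * (t + 1) ∧ (∀ i < K, n / b ^ i % b ∈ A i) ∧
    ∀ m, m = 0 ∨ m ∈ P → ∀ q : ℕ, q.Prime → q ∣ n + m → b ^ K < q ^ r}

/-- The elements `n` of `Rough` for which the product of `n` and of the `n + m`, `m ∈ P`, has at most `r` prime
factors, counted with multiplicity. -/
def AlmostPrime (P : Finset ℕ) (b K t r : ℕ) (A : ℕ → Finset ℕ) : Set ℕ :=
  {n | n ∈ Rough P b K t r A ∧ (n * ∏ m ∈ P, (n + m)).primeFactorsList.length ≤ r}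

theorem w_two {P : Finset ℕ} (h : ∀ m ∈ P, Even m) : w P 2 = 1 := by
  have e : (insert 0 P).image (fun m => m % 2) = {0} := by
    apply Finset.eq_singleton_iff_unique_mem.2
    refine ⟨mem_image.2 ⟨0, mem_insert_self _ _, rfl⟩, fun y hy => ?_⟩
    obtain ⟨m, hm, rfl⟩ := mem_image.1 hy
    rcases mem_insert.1 hm with h0 | h1
    · subst h0; rfl
    · exact Nat.even_iff.1 (h m h1)
  unfold w
  rw [e, card_singleton]

theorem sing_eq {P : Finset ℕ} (h : ∀ m ∈ P, 0 < m ∧ Even m) {x : ℕ} (hx : 2 ≤ x) :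
    Pool.Agent.U464.PD.sing (insert 0 P) x = partialC P x := by
  have h0 : (0 : ℕ) ∉ P := fun h1 => (h 0 h1).1.ne' rfl
  have hc : (insert 0 P).card = P.card + 1 := card_insert_of_notMem h0
  have e : (Icc 1 x).filter Nat.Prime = insert 2 ((Icc 3 x).filter Nat.Prime) := by
    ext q
    simp only [mem_filter, mem_Icc, mem_insert]
    constructor
    · rintro ⟨⟨_, h2⟩, h3⟩
      rcases Nat.lt_or_ge 2 q with h4 | h4
      · exact Or.inr ⟨⟨h4, h2⟩, h3⟩
      · exact Or.inl (le_antisymm h4 h3.two_le)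
    · rintro (rfl | ⟨⟨h1, h2⟩, h3⟩)
      · exact ⟨⟨by norm_num, hx⟩, Nat.prime_two⟩
      · exact ⟨⟨by omega, h2⟩, h3⟩
  unfold Pool.Agent.U464.PD.sing partialC
  rw [e, prod_insert (by simp), hc]
  congr 1
  have h2 : Pool.Agent.U464.PD.nu (insert 0 P) 2 = 1 := w_two fun m hm => (h m hm).2
  rw [h2]
  norm_num
  rw [pow_succ]
  field_simp
  rw [← mul_pow]
  norm_num

/-- **Almost prime constellations at integers with restricted digits.** -/
theorem result (k D : ℕ) :
    ∃ δ : ℝ, 0 < δ ∧ ∃ r₀ : ℕ, 2 ≤ r₀ ∧ ∀ r : ℕ, r₀ ≤ r → ∀ b : ℕ, 2 ≤ b → ∃ κ C : ℝ, 0 < κ ∧ 0 < C ∧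
      ∀ᶠ K : ℕ in atTop, ∀ P : Finset ℕ, P.card = k → (∀ m ∈ P, 0 < m ∧ Even m ∧ m ≤ b ^ (D * K)) →
        (∀ q : ℕ, q.Prime → w P q < q) → ∀ t : ℕ, t ≤ b ^ (D * K) →
        ∀ A : ℕ → Finset ℕ, (∀ i < K, A i ⊆ range b) →
          (b : ℝ) ^ K ≤ Real.exp (δ * K) * ∏ i ∈ range K, ((A i).card : ℝ) →
          ((∃ d ∈ A 0, d.Coprime b ∧ ∀ m ∈ P, (d + m).Coprime b) →
            κ * (∏ i ∈ range K, ((A i).card : ℝ)) * (partialC P (b ^ K) / (K : ℝ) ^ (k + 1)) ≤
              ((AlmostPrime P b K t r A).ncard : ℝ)) ∧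
          ((Rough P b K t r A).ncard : ℝ) ≤
            C * (∏ i ∈ range K, ((A i).card : ℝ)) * (partialC P (b ^ K) / (K : ℝ) ^ (k + 1)) := by
  obtain ⟨δ, hδ, r0, hr0, h⟩ := Pool.Agent.U464.PD.tup (k + 1) D (by omega)
  refine ⟨δ, hδ, r0, hr0, fun r hr b hb => ?_⟩
  obtain ⟨κ, C, hκ, hC, h1⟩ := h r hr b hb
  refine ⟨κ, C, hκ, hC, ?_⟩
  filter_upwards [h1, eventually_ge_atTop 1] with K hK hK1 P hP hm hadm t ht A hA hprod
  have h0 : (0 : ℕ) ∉ P := fun h1 => (hm 0 h1).1.ne' rfl
  have hbK2 : 2 ≤ b ^ K := by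
    calc 2 = 2 ^ 1 := by norm_num
      _ ≤ 2 ^ K := Nat.pow_le_pow_right (by norm_num) (by omega)
      _ ≤ b ^ K := Nat.pow_le_pow_left hb K
  have hR : Rough P b K t r A = Pool.Agent.U464.PD.roughT (insert 0 P) b K t r A := by
    ext n
    unfold Rough Pool.Agent.U464.PD.roughT
    simp only [Set.mem_ofPred_eq, mem_insert]
  have hAl : AlmostPrime P b K t r A = Pool.Agent.U464.PD.almostT (insert 0 P) b K t r A := by
    unfold AlmostPrime Pool.Agent.U464.PD.almostT
    have e2 : ∀ n : ℕ, ∏ m ∈ insert 0 P, (n + m) = n * ∏ m ∈ P, (n + m) := fun n => by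
      rw [prod_insert h0, add_zero]
    simp only [← hR, e2]
  have h2 := hK (insert 0 P) (by rw [card_insert_of_notMem h0, hP])
    (fun m hm' => by
      rcases mem_insert.1 hm' with h3 | h3
      · rw [h3]; exact Nat.zero_le _
      · exact (hm m h3).2.2) hadm t ht A hA hprod
  rw [sing_eq (fun m hm' => ⟨(hm m hm').1, (hm m hm').2.1⟩) hbK2, ← hR, ← hAl] at h2
  refine ⟨fun hd => h2.1 ?_, h2.2⟩
  obtain ⟨d, hdA, hd0, hdm⟩ := hd
  refine ⟨d, hdA, fun m hm' => ?_⟩
  rcases mem_insert.1 hm' with h3 | h3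
  · rw [h3, add_zero]; exact hd0
  · exact hdm m h3

end Pool.Agent.U464.Old.RestrictedDigitTuples
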